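import Pool.Agent.Y645.RW.Trade

/-!
Simulating a random walk of length `l` with `p` passes and `S` bits needs `p * S` at least a
constant times `l`, for all lengths `l`, already on undirected graphs and for any total variation
distance below `1`.  For `l = n ^ 2` and `n` times polylogarithmic space this is `√l` passes up to
polylogarithmic factors, which is what the known algorithm uses.
-/

namespace Pool.Agent.Results.MP_dcdb0f_lc.PassesTimesSpace

open MeasureTheory Pool.Agent.H305rw Pool.Agent.Y645.RW

theorem result (η : ℝ) (hη : η < 1) : ∃ K : ℝ, 0 < K ∧ ∀ n l p S : ℕ, 2 ≤ n →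
    K * (S + Real.log (n + l)) ≤ (n : ℝ) ^ 2 →
    ∀ (Ω σ : Type) [MeasurableSpace Ω] [Fintype σ] (μ : Measure Ω) [IsProbabilityMeasure μ]
      (alg : Fin n → Ω → Machine n σ), Fintype.card σ ≤ 2 ^ S → SimulatesU μ alg p l η →
      (l : ℝ) ≤ K * (p + 1) * (S + Real.log (n + l)) :=
  tradeoff η hη

end Pool.Agent.Results.MP_dcdb0f_lc.PassesTimesSpace
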